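import Mathlib
import Pool.Agent.U796.WM.Cantor

/-!
# MP_3c4aa6_nt: the growth exponents of Weyl sums, positive dimension of the level sets

For every degree `d ≥ 2` and every `α` in `(3/4, 1)` the set of the points of the torus with growth
exponent exactly `α` has positive Hausdorff dimension.

The points used are `(x, θ, 0, …, 0)`: `θ = ∑ 3^{-n_k}` with `n_{k+1} = ⌈n_k / (1 - α)⌉` is a fixed
number and `x` runs through a Cantor set of linear coefficients.  The upper bound
`|S| ≤ C N^α (1 + log N)^{1/2}` comes from Weyl differencing and holds for all `x`; the lower bound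
`|S| ≥ c N^α` at infinitely many `N` comes from the Gauss sums modulo `3^{n_k}`.
-/

set_option autoImplicit false

open Filter MeasureTheory

namespace Pool.Agent.Results.MP_3c4aa6_nt.WeylSpectrum

/-- The Weyl sum `S_d(x; N) = ∑_{n=1}^N exp (2πi (x_1 n + x_2 n² + ⋯ + x_d n^d))`
(the coordinate with index `i : Fin d` is `x_{i+1}`). -/
noncomputable def weyl {d : ℕ} (x : Fin d → ℝ) (N : ℕ) : ℂ :=
  ∑ n ∈ Finset.Icc 1 N,
    Complex.exp (2 * Real.pi * Complex.I * ((∑ i : Fin d, x i * (n : ℝ) ^ ((i : ℕ) + 1) : ℝ) : ℂ))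

/-- The growth exponent `σ(x) = limsup log |S_d(x; N)| / log N`, as an extended real number
(`log 0 = -∞`). -/
noncomputable def sigma {d : ℕ} (x : Fin d → ℝ) : EReal :=
  limsup (fun N : ℕ => ENNReal.log ‖weyl x N‖ₑ / ((Real.log N : ℝ) : EReal)) atTop

/-- The level set `Ω_α` in the torus `[0,1)^d`. -/
def Omega (d : ℕ) (α : ℝ) : Set (Fin d → ℝ) :=
  {x | (∀ i, x i ∈ Set.Ico (0 : ℝ) 1) ∧ sigma x = (α : EReal)}

open Pool.Agent.U796.WM Pool.Agent.H520R3

/-- the point `(x, θ, 0, …, 0)` -/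
noncomputable def pt (d : ℕ) (x θ : ℝ) : Fin d → ℝ :=
  fun i => if (i : ℕ) = 0 then x else if (i : ℕ) = 1 then θ else 0

lemma weyl_pt (m : ℕ) (x θ : ℝ) (N : ℕ) :
    weyl (pt (m + 2) x θ) N = S x θ N + (e (θ * (N : ℝ) ^ 2 + x * N) - 1) := by
  have h1 : weyl (pt (m + 2) x θ) N = ∑ n ∈ Finset.Icc 1 N, e (θ * (n : ℝ) ^ 2 + x * n) := by
    unfold weyl
    apply Finset.sum_congr rfl
    intro n _
    have h2 : ∑ i : Fin (m + 2), pt (m + 2) x θ i * (n : ℝ) ^ ((i : ℕ) + 1) =
        θ * (n : ℝ) ^ 2 + x * n := by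
      rw [Fin.sum_univ_succ, Fin.sum_univ_succ]
      have h3 : ∑ i : Fin m, pt (m + 2) x θ i.succ.succ * (n : ℝ) ^ ((i.succ.succ : Fin (m + 2)) + 1 : ℕ) = 0 := by
        apply Finset.sum_eq_zero
        intro i _
        simp [pt]
      rw [h3]
      simp [pt]
      ring
    rw [h2]
    unfold e
    congr 1
    push_cast
    ring
  rw [h1]
  have h4 : ∑ n ∈ Finset.range (N + 1), e (θ * (n : ℝ) ^ 2 + x * n) =
      S x θ N + e (θ * (N : ℝ) ^ 2 + x * N) := by
    rw [Finset.sum_range_succ]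
    rfl
  have h5 : ∑ n ∈ Finset.range (N + 1), e (θ * (n : ℝ) ^ 2 + x * n) =
      1 + ∑ n ∈ Finset.Icc 1 N, e (θ * (n : ℝ) ^ 2 + x * n) := by
    rw [Finset.range_eq_Ico, Finset.sum_eq_sum_Ico_succ_bot (Nat.succ_pos N)]
    congr 1
    simp [e_zero]
  linear_combination h4 - h5

lemma norm_weyl_sub (m : ℕ) (x θ : ℝ) (N : ℕ) :
    ‖weyl (pt (m + 2) x θ) N‖ ≤ ‖S x θ N‖ + 2 ∧ ‖S x θ N‖ ≤ ‖weyl (pt (m + 2) x θ) N‖ + 2 := by
  have h1 := weyl_pt m x θ N
  have h2 : ‖e (θ * (N : ℝ) ^ 2 + x * N) - 1‖ ≤ 2 := by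
    refine le_trans (norm_sub_le _ _) ?_
    rw [norm_e, norm_one]
    norm_num
  constructor
  · rw [h1]
    refine le_trans (norm_add_le _ _) ?_
    linarith
  · have h3 : S x θ N = weyl (pt (m + 2) x θ) N - (e (θ * (N : ℝ) ^ 2 + x * N) - 1) := by
      rw [h1]; ring
    rw [h3]
    refine le_trans (norm_sub_le _ _) ?_
    linarith

lemma enn_log_pow {N : ℕ} (hN : 2 ≤ N) (z : ℝ) :
    ENNReal.log (ENNReal.ofReal ((N : ℝ) ^ z)) / ((Real.log N : ℝ) : EReal) = (z : EReal) := by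
  have hN0 : (0 : ℝ) < N := by
    have : 0 < N := by omega
    exact_mod_cast this
  have hl : 0 < Real.log (N : ℝ) := Real.log_pos (by exact_mod_cast hN)
  have hp : 0 < (N : ℝ) ^ z := by positivity
  rw [ENNReal.log_pos_real (ENNReal.ofReal_pos.2 hp).ne' ENNReal.ofReal_ne_top,
    ENNReal.toReal_ofReal hp.le, Real.log_rpow hN0, ← EReal.coe_div]
  congr 1
  field_simp

lemma ratio_le {N : ℕ} (hN : 2 ≤ N) {z : ℝ} {w : ℂ} (h : ‖w‖ ≤ (N : ℝ) ^ z) :
    ENNReal.log ‖w‖ₑ / ((Real.log N : ℝ) : EReal) ≤ (z : EReal) := by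
  rw [← enn_log_pow hN z]
  have hl : 0 < Real.log (N : ℝ) := Real.log_pos (by exact_mod_cast hN)
  apply EReal.div_le_div_right_of_nonneg (by exact_mod_cast hl.le)
  apply ENNReal.log_monotone
  rw [← ofReal_norm]
  exact ENNReal.ofReal_le_ofReal h

lemma le_ratio {N : ℕ} (hN : 2 ≤ N) {z : ℝ} {w : ℂ} (h : (N : ℝ) ^ z ≤ ‖w‖) :
    (z : EReal) ≤ ENNReal.log ‖w‖ₑ / ((Real.log N : ℝ) : EReal) := by
  rw [← enn_log_pow hN z]
  have hl : 0 < Real.log (N : ℝ) := Real.log_pos (by exact_mod_cast hN)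
  apply EReal.div_le_div_right_of_nonneg (by exact_mod_cast hl.le)
  apply ENNReal.log_monotone
  rw [← ofReal_norm]
  exact ENNReal.ofReal_le_ofReal h

theorem sigma_eq {α ρ : ℝ} (h : Par α ρ) (m : ℕ) (b : ℕ → Fin 2) :
    sigma (pt (m + 2) (xx ρ b) (theta ρ)) = (α : EReal) := by
  have hα := h.h1
  apply le_antisymm
  · rw [← EReal.le_of_forall_lt_iff_le]
    intro z hz
    have hz' : α < z := by exact_mod_cast hz
    obtain ⟨N0, hN0⟩ := S_theta_le h
    apply limsup_le_of_le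
    · isBoundedDefault
    · -- eventually `‖weyl‖ ≤ N^z`
      have hε : 0 < (z - α) / 2 := by linarith
      have h1 : ∀ᶠ N : ℕ in atTop, 2500 * (1 + Real.log N) ≤ ((N : ℝ) ^ ((z - α))) := by
        have h2 := (isLittleO_log_rpow_atTop (r := z - α) (by linarith)).bound
          (show (0 : ℝ) < 1 / 5000 by norm_num)
        have h3 := h2.natCast_atTop
        have h4 : Tendsto (fun N : ℕ => (N : ℝ) ^ (z - α)) atTop atTop :=
          (tendsto_rpow_atTop (by linarith)).comp tendsto_natCast_atTop_atTop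
        filter_upwards [h3, h4.eventually_ge_atTop 5000, eventually_ge_atTop 1] with N h5 h6 h7
        have h8 : (1 : ℝ) ≤ N := by exact_mod_cast h7
        rw [Real.norm_of_nonneg (Real.log_nonneg h8), Real.norm_of_nonneg (by positivity)] at h5
        linarith
      have h4 : Tendsto (fun N : ℕ => (N : ℝ) ^ ((z - α) / 2)) atTop atTop :=
        (tendsto_rpow_atTop hε).comp tendsto_natCast_atTop_atTop
      filter_upwards [h1, h4.eventually_ge_atTop 4, eventually_ge_atTop N0,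
        eventually_ge_atTop 2] with N h5 h6 h7 h8
      apply ratio_le h8
      have hN1 : (1 : ℝ) ≤ N := by
        have : 1 ≤ N := by omega
        exact_mod_cast this
      have hNp : (0 : ℝ) < N := by linarith
      have h9 := hN0 N h7 (xx ρ b)
      have h10 : ‖S (xx ρ b) (theta ρ) N‖ ^ 2 ≤ ((N : ℝ) ^ ((z + α) / 2)) ^ 2 := by
        refine le_trans h9 ?_
        have e1 : ((N : ℝ) ^ ((z + α) / 2)) ^ 2 = (N : ℝ) ^ (2 * α) * (N : ℝ) ^ (z - α) := by
          rw [← Real.rpow_natCast, ← Real.rpow_mul hNp.le, ← Real.rpow_add hNp]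
          congr 1
          push_cast
          ring
        rw [e1]
        calc 2500 * ((N : ℝ) ^ (2 * α) * (1 + Real.log N))
            = (N : ℝ) ^ (2 * α) * (2500 * (1 + Real.log N)) := by ring
          _ ≤ (N : ℝ) ^ (2 * α) * (N : ℝ) ^ (z - α) := by gcongr
      have h11 : ‖S (xx ρ b) (theta ρ) N‖ ≤ (N : ℝ) ^ ((z + α) / 2) :=
        le_of_sq_le_sq h10 (by positivity)
      have h12 := (norm_weyl_sub m (xx ρ b) (theta ρ) N).1
      have h13 : (N : ℝ) ^ z = (N : ℝ) ^ ((z + α) / 2) * (N : ℝ) ^ ((z - α) / 2) := by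
        rw [← Real.rpow_add hNp]
        congr 1
        ring
      have h14 : 1 ≤ (N : ℝ) ^ ((z + α) / 2) := Real.one_le_rpow hN1 (by linarith)
      rw [h13]
      nlinarith
  · apply EReal.ge_of_forall_gt_iff_ge.1
    intro z hz
    have hz' : z < α := by exact_mod_cast hz
    apply le_limsup_of_frequently_le
    · rw [frequently_atTop]
      intro K
      have h4 : Tendsto (fun N : ℕ => (N : ℝ) ^ ((α - z))) atTop atTop :=
        (tendsto_rpow_atTop (by linarith)).comp tendsto_natCast_atTop_atTop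
      have h4' : Tendsto (fun N : ℕ => (N : ℝ) ^ α) atTop atTop :=
        (tendsto_rpow_atTop (by linarith)).comp tendsto_natCast_atTop_atTop
      obtain ⟨K1, hK1⟩ := (h4.eventually_ge_atTop 36).exists_forall_of_atTop
      obtain ⟨K2, hK2⟩ := (h4'.eventually_ge_atTop 72).exists_forall_of_atTop
      obtain ⟨N, hN, hS⟩ := S_xx_ge h b (K + K1 + K2 + 2)
      refine ⟨N, by omega, ?_⟩
      apply le_ratio (by omega)
      have h1 := (norm_weyl_sub m (xx ρ b) (theta ρ) N).2
      have h2 := hK1 N (by omega)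
      have h3 := hK2 N (by omega)
      have hNp : (0 : ℝ) < N := by
        have : 0 < N := by omega
        exact_mod_cast this
      have h5 : (N : ℝ) ^ α = (N : ℝ) ^ z * (N : ℝ) ^ (α - z) := by
        rw [← Real.rpow_add hNp]
        congr 1
        ring
      have h6 : 0 < (N : ℝ) ^ z := by positivity
      nlinarith
    · isBoundedDefault

/-- Q1, answered for all `d ≥ 2`: every `α ∈ (3/4, 1)` has a level set of positive Hausdorff
dimension; in particular there is a set `A ⊆ [0, 1]` of positive Lebesgue measure that consists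
entirely of exponents `α` with `dim Ω_α > 0`. -/
theorem result (d : ℕ) (hd : 2 ≤ d) :
    (∀ α ∈ Set.Ioo (3 / 4 : ℝ) 1, 0 < dimH (Omega d α)) ∧
      ∃ A ⊆ Set.Icc (0 : ℝ) 1, 0 < volume A ∧ ∀ α ∈ A, 0 < dimH (Omega d α) := by
  have main : ∀ α ∈ Set.Ioo (3 / 4 : ℝ) 1, 0 < dimH (Omega d α) := by
    intro α hα
    obtain ⟨m, rfl⟩ : ∃ m, d = m + 2 := ⟨d - 2, by omega⟩
    have hP : Par α (1 / (1 - α)) := by
      have : 1 - α ≠ 0 := by
        have := hα.2
        linarith
      exact ⟨hα.1, hα.2, by field_simp⟩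
    set ρ := 1 / (1 - α) with hρ
    have hρ4 := hP.rho
    have h1 : 0 < dimH (Set.range (fun b : ℕ → Fin 2 => pt (m + 2) (xx ρ b) (theta ρ))) := by
      apply dim_pos_of_coding _ (hold_pos hρ4)
      intro b b'
      refine le_trans (coding_holder hρ4 b b') ?_
      apply mul_le_mul_of_nonneg_left _ (by norm_num)
      apply Real.rpow_le_rpow (abs_nonneg _) _ (hold_pos hρ4).le
      have h2 := dist_le_pi_dist (pt (m + 2) (xx ρ b) (theta ρ)) (pt (m + 2) (xx ρ b') (theta ρ)) 0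
      simpa [pt, Real.dist_eq] using h2
    refine lt_of_lt_of_le h1 (dimH_mono ?_)
    rintro _ ⟨b, rfl⟩
    refine ⟨?_, sigma_eq hP m b⟩
    intro i
    show pt (m + 2) (xx ρ b) (theta ρ) i ∈ Set.Ico (0 : ℝ) 1
    unfold pt
    split_ifs
    · exact xx_mem hρ4 b
    · exact theta_mem hρ4
    · norm_num
  refine ⟨main, Set.Ioo (3 / 4 : ℝ) 1, ?_, ?_, main⟩
  · intro x hx
    exact ⟨by linarith [hx.1], hx.2.le⟩
  · rw [Real.volume_Ioo]
    norm_num

end Pool.Agent.Results.MP_3c4aa6_nt.WeylSpectrum
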